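import Mathlib

namespace Pool.Agent.Results.MP_c0ff68_co.Two

/-- A positional game on the board `V` between an opponent, who has claimed `M`, and a player, who
has claimed `B`; the flag is `true` when the opponent is to move. `Wins P M B t` says that the
player can ensure that the final set of the opponent satisfies `P`. -/
inductive Wins {V : Type} [Fintype V] [DecidableEq V] (P : Finset V → Prop) :
    Finset V → Finset V → Bool → Prop
  | done {M B : Finset V} {t : Bool} : M ∪ B = Finset.univ → P M → Wins P M B t
  | opp {M B : Finset V} : M ∪ B ≠ Finset.univ →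
      (∀ v, v ∉ M ∪ B → Wins P (insert v M) B false) → Wins P M B true
  | own {M B : Finset V} (v : V) : v ∉ M ∪ B → Wins P M (insert v B) true → Wins P M B false

/-- Gap factor at least `c`: whoever moves first, Forcer can force Avoider to claim a whole winning
set, and Breaker can keep Maker to at most `|A| / c` elements of every winning set `A`. -/
def Gap {V : Type} [Fintype V] [DecidableEq V] (F : Finset (Finset V)) (c : ℝ) : Prop :=
  (∀ t, Wins (fun M => ∃ A ∈ F, A ⊆ M) ∅ ∅ t) ∧
    ∀ t, Wins (fun M => ∀ A ∈ F, ((M ∩ A).card : ℝ) ≤ A.card / c) ∅ ∅ t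

theorem result (V : Type) [Fintype V] [DecidableEq V] (F : Finset (Finset V))
    (hF : ∀ A ∈ F, A.Nonempty) (c : ℝ) (hc : 1 ≤ c) (h : Gap F c) : c ≤ 2 := by
  have h0 : ∀ (P : Finset V → Prop) M B t, Wins P M B t → ∃ M, P M := by
    intro P M B t h
    induction h with
    | done _ h => exact ⟨_, h⟩
    | @opp M B h _ ih =>
      obtain ⟨v, hv⟩ : ∃ v, v ∉ M ∪ B := by
        by_contra! h1
        exact h (Finset.eq_univ_iff_forall.2 h1)
      exact ih v hv
    | own _ _ _ ih => exact ih
  obtain ⟨_, A, hA, -⟩ := h0 _ _ _ _ (h.1 true)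
  have key : ∀ (P : Finset V → Prop) M B t, Wins P M B t → (B ∩ A).card ≤ (M ∩ A).card →
      (t = false → (B ∩ A).card < (M ∩ A).card ∨ A ⊆ M ∪ B) →
      ∃ M, P M ∧ A.card ≤ 2 * (M ∩ A).card := by
    intro P M B t h
    induction h with
    | @done M B t h1 h2 =>
      refine fun h3 _ => ⟨M, h2, ?_⟩
      have h4 := Finset.card_union_le (M ∩ A) (B ∩ A)
      rw [← Finset.union_inter_distrib_right, h1, Finset.univ_inter] at h4
      omega
    | @opp M B h1 _ ih =>
      intro h3 _
      by_cases h4 : A ⊆ M ∪ B
      · obtain ⟨v, hv⟩ : ∃ v, v ∉ M ∪ B := by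
          by_contra! h5
          exact h1 (Finset.eq_univ_iff_forall.2 h5)
        exact ih v hv (h3.trans (Finset.card_le_card (Finset.inter_subset_inter_right
          (Finset.subset_insert _ _)))) fun _ => Or.inr (h4.trans
            (Finset.union_subset_union_left (Finset.subset_insert _ _)))
      · obtain ⟨v, h5, hv⟩ := Finset.not_subset.1 h4
        have h6 : (insert v M ∩ A).card = (M ∩ A).card + 1 := by
          rw [Finset.insert_inter_of_mem h5, Finset.card_insert_of_notMem fun h7 =>
            hv (Finset.mem_union_left _ (Finset.mem_inter.1 h7).1)]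
        exact ih v hv (by omega) fun _ => Or.inl (by omega)
    | @own M B v hv _ ih =>
      intro h3 h4
      refine ih ?_ (by simp)
      rcases h4 rfl with h5 | h5
      · by_cases h6 : v ∈ A
        · rw [Finset.insert_inter_of_mem h6]
          exact (Finset.card_insert_le _ _).trans h5
        · rwa [Finset.insert_inter_of_notMem h6]
      · rwa [Finset.insert_inter_of_notMem fun h6 => hv (h5 h6)]
  obtain ⟨M, h1, h2⟩ := key _ _ _ _ (h.2 true) le_rfl (by simp)
  have h3 := h1 A hA
  have h4 : (0 : ℝ) < A.card := by exact_mod_cast (hF A hA).card_pos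
  have h5 : (A.card : ℝ) ≤ 2 * (M ∩ A).card := by exact_mod_cast h2
  rw [le_div_iff₀ (by linarith)] at h3
  nlinarith

end Pool.Agent.Results.MP_c0ff68_co.Two
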